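import Mathlib
import Pool.Agent.H35.BentMinus

set_option autoImplicit false

namespace Pool.Agent.Results.MP_7d7944_co.NoMinus

open Pool.Agent.H35.BentMinus

/-- There is a bent map `F : F_2^14 → F_2^7` such that no linear `L` makes `F + L` almost
balanced of type `(-)`. -/
theorem result : ∃ F : (Fin 14 → ZMod 2) → (Fin 7 → ZMod 2), IsBent F ∧
    ∀ L : (Fin 14 → ZMod 2) →ₗ[ZMod 2] (Fin 7 → ZMod 2), ¬ TypeMinus (fun x => F x + L x) :=
  main

end Pool.Agent.Results.MP_7d7944_co.NoMinus
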